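import Pool.Agent.Lib.MP_28303a_al.NT.H22.Stab2

/-! # Groups of matrices with integral traces over fields without new points on rational conics

Let `K` be a field of characteristic `0` in which the algebraic integers are the integers, and
such that every conic over `ℚ` with a point over `K` has a point over `ℚ`.  A torsionfree group of
matrices in `GL₂(K)` with traces in `ℤ` and determinants `± 1` is commutative or isomorphic to a
subgroup of `GL₂(ℤ)`. -/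

set_option autoImplicit false

namespace Pool.Agent.NegK.NT.H70

universe u v

open H22.G (tr dt adj mulE ext2 tr_eq dt_eq dd)

/-- Every conic over `ℚ` with a point over `K` has a point over `ℚ`. -/
def Conics (K : Type u) [Field K] : Prop :=
  ∀ a b c d e f : ℚ,
    (∃ x y z : K, (x ≠ 0 ∨ y ≠ 0 ∨ z ≠ 0) ∧ (a : K) * x ^ 2 + b * y ^ 2 + c * z ^ 2 +
      d * (x * y) + e * (x * z) + f * (y * z) = 0) →
    ∃ x y z : ℚ, (x ≠ 0 ∨ y ≠ 0 ∨ z ≠ 0) ∧ a * x ^ 2 + b * y ^ 2 + c * z ^ 2 +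
      d * (x * y) + e * (x * z) + f * (y * z) = 0

/-- The fields of characteristic `0` such that `ℚ` is algebraically closed in `K` and every conic
over `ℚ` with a point over `K` has a point over `ℚ`. -/
structure Rig (K : Type u) [Field K] : Prop where
  char : CharZero K
  int : ∀ a : K, IsIntegral ℤ a → ∃ z : ℤ, a = z
  conics : Conics K

/-- The units. -/
theorem Rig.units {K : Type u} [Field K] (hK : Rig K) (χ : K) (h0 : χ ≠ 0)
    (h : ∃ t : ℤ, χ + χ⁻¹ = t) : χ = 1 ∨ χ = -1 := by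
  have := hK.char
  obtain ⟨t, ht⟩ := h
  obtain ⟨n, hn⟩ := hK.int χ (by
    refine ⟨Polynomial.X ^ 2 - Polynomial.C t * Polynomial.X + 1, ?_, ?_⟩
    · monicity!
    · rw [Polynomial.eval₂_add, Polynomial.eval₂_sub, Polynomial.eval₂_mul,
        Polynomial.eval₂_X_pow, Polynomial.eval₂_C, Polynomial.eval₂_X, Polynomial.eval₂_one,
        eq_intCast, ← ht, add_mul, inv_mul_cancel₀ h0]
      ring)
  have h1 : (n : K) * (t - n) = 1 := by
    rw [← ht, ← hn, add_sub_cancel_left, mul_inv_cancel₀ h0]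
  have h2 : n * (t - n) = 1 := by exact_mod_cast h1
  rcases Int.isUnit_iff.1 (IsUnit.of_mul_eq_one _ h2) with h3 | h3
  · left; rw [hn, h3, Int.cast_one]
  · right; rw [hn, h3, Int.cast_neg, Int.cast_one]

section

variable {K : Type u} [Field K]

/-- Nilpotent matrices. -/
theorem nilp (p q r : K) (h : p ^ 2 + q * r = 0) (h0 : q ≠ 0 ∨ r ≠ 0) :
    ∃ u0 u1 l : K, l ≠ 0 ∧ (u0 ≠ 0 ∨ u1 ≠ 0) ∧ p = -(l * (u0 * u1)) ∧ q = l * u0 ^ 2 ∧
      r = -(l * u1 ^ 2) := by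
  by_cases hq : q = 0
  · have hr := h0.resolve_left fun h => h hq
    rw [hq, zero_mul, add_zero] at h
    have hp : p = 0 := pow_eq_zero_iff (two_ne_zero) |>.1 h
    exact ⟨0, 1, -r, neg_ne_zero.2 hr, Or.inr one_ne_zero, by rw [hp]; ring, by rw [hq]; ring,
      by ring⟩
  · refine ⟨1, -(p / q), q, hq, Or.inl one_ne_zero, ?_, by ring, ?_⟩
    · field_simp
    · field_simp
      linear_combination h

/-- The matrix `d` with `d v = l ω(u, v) u`. -/
theorem tr_d (u0 u1 l : K) (d m : Matrix (Fin 2) (Fin 2) K) (h00 : d 0 0 = -(l * (u0 * u1)))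
    (h01 : d 0 1 = l * u0 ^ 2) (h10 : d 1 0 = -(l * u1 ^ 2)) (h11 : d 1 1 = l * (u0 * u1)) :
    tr (d * m) = l * (u0 * (m 1 0 * u0 + m 1 1 * u1) - u1 * (m 0 0 * u0 + m 0 1 * u1)) := by
  rw [tr, mulE, mulE, h00, h01, h10, h11]
  ring

/-- In the basis `u, h u` the entries of `g` are quotients of traces. -/
theorem SR (u0 u1 l : K) (d h g R : Matrix (Fin 2) (Fin 2) K) (h00 : d 0 0 = -(l * (u0 * u1)))
    (h01 : d 0 1 = l * u0 ^ 2) (h10 : d 1 0 = -(l * u1 ^ 2)) (h11 : d 1 1 = l * (u0 * u1))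
    (hτ : tr (d * h) ≠ 0) (r00 : R 0 0 * tr (d * h) = tr (d * (adj g * h)))
    (r10 : R 1 0 * tr (d * h) = tr (d * g))
    (r01 : R 0 1 * tr (d * h) = tr (d * (adj (g * h) * h)))
    (r11 : R 1 1 * tr (d * h) = tr (d * (g * h))) :
    (Matrix.of ![![u0, h 0 0 * u0 + h 0 1 * u1], ![u1, h 1 0 * u0 + h 1 1 * u1]]) * R =
      g * (Matrix.of ![![u0, h 0 0 * u0 + h 0 1 * u1], ![u1, h 1 0 * u0 + h 1 1 * u1]]) := by
  rw [tr_d u0 u1 l d _ h00 h01 h10 h11] at hτ r00 r10 r01 r11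
  rw [tr_d u0 u1 l d _ h00 h01 h10 h11] at r00 r10 r01 r11
  simp only [mulE, H22.G.adj00, H22.G.adj01, H22.G.adj10, H22.G.adj11] at r00 r10 r01 r11
  refine ext2 ?_ ?_ ?_ ?_ <;> rw [mulE, mulE] <;>
    simp only [Matrix.of_apply, Matrix.cons_val', Matrix.cons_val_zero, Matrix.cons_val_one,
      Matrix.cons_val_fin_one] <;> refine mul_right_cancel₀ hτ ?_
  · linear_combination u0 * r00 + (h 0 0 * u0 + h 0 1 * u1) * r10
  · linear_combination u0 * r01 + (h 0 0 * u0 + h 0 1 * u1) * r11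
  · linear_combination u1 * r00 + (h 1 0 * u0 + h 1 1 * u1) * r10
  · linear_combination u1 * r01 + (h 1 0 * u0 + h 1 1 * u1) * r11

/-- The combinations of the parts with trace zero of `X, Y, XY`. -/
def D (X Y : Matrix (Fin 2) (Fin 2) K) (α β γ : K) : Matrix (Fin 2) (Fin 2) K :=
  Matrix.of ![![α * (X 0 0 - X 1 1) + β * (Y 0 0 - Y 1 1) + γ * ((X * Y) 0 0 - (X * Y) 1 1),
    2 * (α * X 0 1 + β * Y 0 1 + γ * (X * Y) 0 1)],
    ![2 * (α * X 1 0 + β * Y 1 0 + γ * (X * Y) 1 0),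
      -(α * (X 0 0 - X 1 1) + β * (Y 0 0 - Y 1 1) + γ * ((X * Y) 0 0 - (X * Y) 1 1))]]

theorem D00 (X Y : Matrix (Fin 2) (Fin 2) K) (α β γ : K) : D X Y α β γ 0 0 =
    α * (X 0 0 - X 1 1) + β * (Y 0 0 - Y 1 1) + γ * ((X * Y) 0 0 - (X * Y) 1 1) := rfl

theorem D01 (X Y : Matrix (Fin 2) (Fin 2) K) (α β γ : K) : D X Y α β γ 0 1 =
    2 * (α * X 0 1 + β * Y 0 1 + γ * (X * Y) 0 1) := rfl

theorem D10 (X Y : Matrix (Fin 2) (Fin 2) K) (α β γ : K) : D X Y α β γ 1 0 =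
    2 * (α * X 1 0 + β * Y 1 0 + γ * (X * Y) 1 0) := rfl

theorem D11 (X Y : Matrix (Fin 2) (Fin 2) K) (α β γ : K) : D X Y α β γ 1 1 =
    -(α * (X 0 0 - X 1 1) + β * (Y 0 0 - Y 1 1) + γ * ((X * Y) 0 0 - (X * Y) 1 1)) := rfl

theorem tr_D (X Y m : Matrix (Fin 2) (Fin 2) K) (α β γ : K) : tr (D X Y α β γ * m) =
    α * (2 * tr (X * m) - tr X * tr m) + β * (2 * tr (Y * m) - tr Y * tr m) +
      γ * (2 * tr (X * Y * m) - tr (X * Y) * tr m) := by
  simp only [tr, mulE (D X Y α β γ), mulE X m, mulE Y m, mulE (X * Y) m, D00, D01, D10, D11]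
  ring

theorem det_D (X Y : Matrix (Fin 2) (Fin 2) K) (α β γ : K) :
    D X Y α β γ 0 0 ^ 2 + D X Y α β γ 0 1 * D X Y α β γ 1 0 =
    (tr X ^ 2 - 4 * dt X) * α ^ 2 + (tr Y ^ 2 - 4 * dt Y) * β ^ 2 +
      (tr (X * Y) ^ 2 - 4 * dt (X * Y)) * γ ^ 2 + (4 * tr (X * Y) - 2 * tr X * tr Y) * (α * β) +
      (4 * tr (X * (X * Y)) - 2 * tr X * tr (X * Y)) * (α * γ) +
      (4 * tr (Y * (X * Y)) - 2 * tr Y * tr (X * Y)) * (β * γ) := by
  have h1 : tr (X * Y) = X 0 0 * Y 0 0 + X 0 1 * Y 1 0 + (X 1 0 * Y 0 1 + X 1 1 * Y 1 1) := by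
    rw [tr, mulE, mulE]
  have h2 : (4 * tr (X * Y) - 2 * tr X * tr Y) =
      2 * (X 0 0 - X 1 1) * (Y 0 0 - Y 1 1) + 4 * (X 0 1 * Y 1 0 + X 1 0 * Y 0 1) := by
    rw [h1, tr, tr]; ring
  rw [h2]
  simp only [D00, D01, D10, tr, dt, mulE X (X * Y), mulE Y (X * Y)]
  ring

/-- There is a rational nilpotent combination. -/
theorem exists_d [CharZero K] (hK : Conics K) (X Y : Matrix (Fin 2) (Fin 2) K)
    (hdd : dd X Y ≠ 0) (a b c d e f : ℚ) (ha : (a : K) = tr X ^ 2 - 4 * dt X)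
    (hb : (b : K) = tr Y ^ 2 - 4 * dt Y) (hc : (c : K) = tr (X * Y) ^ 2 - 4 * dt (X * Y))
    (hd : (d : K) = 4 * tr (X * Y) - 2 * tr X * tr Y)
    (he : (e : K) = 4 * tr (X * (X * Y)) - 2 * tr X * tr (X * Y))
    (hf : (f : K) = 4 * tr (Y * (X * Y)) - 2 * tr Y * tr (X * Y)) :
    ∃ α β γ : ℚ, (D X Y α β γ 0 1 ≠ 0 ∨ D X Y α β γ 1 0 ≠ 0) ∧
      D X Y α β γ 0 0 ^ 2 + D X Y α β γ 0 1 * D X Y α β γ 1 0 = 0 := by
  let M : Matrix (Fin 3) (Fin 3) K := Matrix.of ![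
    ![X 0 0 - X 1 1, Y 0 0 - Y 1 1, (X * Y) 0 0 - (X * Y) 1 1],
    ![2 * X 0 1, 2 * Y 0 1, 2 * (X * Y) 0 1], ![2 * X 1 0, 2 * Y 1 0, 2 * (X * Y) 1 0]]
  have hM : M.det = -4 * dd X Y := by
    rw [Matrix.det_fin_three, dd]
    simp only [M, Matrix.of_apply, Matrix.cons_val', Matrix.cons_val_zero, Matrix.cons_val_one,
      Matrix.cons_val_two, Matrix.cons_val_fin_one, Matrix.vecHead, Matrix.vecTail,
      Function.comp, Fin.succ_zero_eq_one]
    ring
  have hM0 : M.det ≠ 0 := by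
    rw [hM]
    exact mul_ne_zero (neg_ne_zero.2 (by norm_num)) hdd
  have hMv : ∀ x y z : K, M.mulVec ![x, y, z] =
      ![D X Y x y z 0 0, D X Y x y z 0 1, D X Y x y z 1 0] := by
    intro x y z
    funext i
    fin_cases i <;>
    · simp [M, Matrix.mulVec, dotProduct, Fin.sum_univ_three, D00, D01, D10]
      ring
  obtain ⟨v, hv⟩ : ∃ v : Fin 3 → K, M.mulVec v = ![0, 1, 0] := by
    refine ⟨M⁻¹.mulVec ![0, 1, 0], ?_⟩
    rw [Matrix.mulVec_mulVec, Matrix.mul_nonsing_inv _ (isUnit_iff_ne_zero.2 hM0),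
      Matrix.one_mulVec]
  have hv' : v = ![v 0, v 1, v 2] := by
    funext i
    fin_cases i <;> rfl
  rw [hv', hMv] at hv
  have e0 : D X Y (v 0) (v 1) (v 2) 0 0 = 0 := congrFun hv 0
  have e1 : D X Y (v 0) (v 1) (v 2) 0 1 = 1 := congrFun hv 1
  have e2 : D X Y (v 0) (v 1) (v 2) 1 0 = 0 := congrFun hv 2
  obtain ⟨x, y, z, h0, h1⟩ := hK a b c d e f ⟨v 0, v 1, v 2, by
    by_contra h
    push Not at h
    rw [h.1, h.2.1, h.2.2, D01] at e1
    simp at e1, by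
    rw [ha, hb, hc, hd, he, hf, ← det_D, e0, e2]
    ring⟩
  have h2 : D X Y (x : K) y z 0 0 ^ 2 + D X Y (x : K) y z 0 1 * D X Y (x : K) y z 1 0 = 0 := by
    rw [det_D, ← ha, ← hb, ← hc, ← hd, ← he, ← hf]
    exact_mod_cast h1
  refine ⟨x, y, z, ?_, h2⟩
  by_contra h
  push Not at h
  rw [h.1, zero_mul, add_zero] at h2
  have h3 : D X Y (x : K) y z 0 0 = 0 := pow_eq_zero_iff (two_ne_zero) |>.1 h2
  have h4 : M.mulVec ![(x : K), y, z] = 0 := by
    rw [hMv, h3, h.1, h.2]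
    funext i
    fin_cases i <;> rfl
  have h5 := Matrix.eq_zero_of_mulVec_eq_zero hM0 h4
  have k0 : (x : K) = 0 := congrFun h5 0
  have k1 : (y : K) = 0 := congrFun h5 1
  have k2 : (z : K) = 0 := congrFun h5 2
  rcases h0 with h0 | h0 | h0
  · exact h0 (by exact_mod_cast k0)
  · exact h0 (by exact_mod_cast k1)
  · exact h0 (by exact_mod_cast k2)

end

/-- STAB for the fields without new points on rational conics. -/
theorem stab3 {H : Type u} [Group H] (htf : ∀ (g : H) (n : ℕ), 0 < n → g ^ n = 1 → g = 1)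
    {K : Type v} [Field K] (hK : Rig K) (φ : H →* Matrix.GeneralLinearGroup (Fin 2) K)
    (hφ : Function.Injective φ)
    (ht : ∀ h, ∃ t : ℤ, Matrix.trace (φ h : Matrix (Fin 2) (Fin 2) K) = t)
    (hd : ∀ h, Matrix.det (φ h : Matrix (Fin 2) (Fin 2) K) = 1 ∨
      Matrix.det (φ h : Matrix (Fin 2) (Fin 2) K) = -1) :
    (∀ x y : H, x * y = y * x) ∨
      ∃ ψ : H →* Matrix.GeneralLinearGroup (Fin 2) ℤ, Function.Injective ψ := by
  have := hK.char
  obtain ⟨Φ, hΦ⟩ : ∃ Φ : H →* Matrix (Fin 2) (Fin 2) K,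
      ∀ h, Φ h = (φ h : Matrix (Fin 2) (Fin 2) K) :=
    ⟨(Units.coeHom _).comp φ, fun _ => rfl⟩
  have hinj : Function.Injective Φ := fun g h hgh => hφ (Units.ext (by rw [← hΦ, ← hΦ, hgh]))
  have htK : ∀ h, ∃ t : ℤ, tr (Φ h) = t := fun h => by
    obtain ⟨t, h1⟩ := ht h
    exact ⟨t, by rw [← h1, ← hΦ, tr_eq]⟩
  have hdK : ∀ h, dt (Φ h) = 1 ∨ dt (Φ h) = -1 := fun h => by
    have := hd h
    rw [← hΦ, dt_eq] at this
    exact this
  have hdq : ∀ h, ∃ q : ℤ, dt (Φ h) = q := fun h => by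
    rcases hdK h with h1 | h1
    · exact ⟨1, by rw [h1, Int.cast_one]⟩
    · exact ⟨-1, by rw [h1, Int.cast_neg, Int.cast_one]⟩
  by_cases hc : ∀ x y : H, tr (Φ (x * y * x⁻¹ * y⁻¹)) = 2
  · exact Or.inl fun x y => H22.G.comm_of two_ne_zero htf Φ hinj htK hdK hK.units hc x y
  push Not at hc
  obtain ⟨x, y, hxy⟩ := hc
  have dtK : ∀ h, dt (Φ h) ≠ 0 := fun h => left_ne_zero_of_mul_eq_one (H22.G.dt_inv Φ h)
  have hDK : dd (Φ x) (Φ y) ≠ 0 := by
    rw [H22.G.dd_comm]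
    exact mul_ne_zero (mul_ne_zero (dtK x) (dtK y)) (sub_ne_zero.2 (Ne.symm hxy))
  choose t htt using htK
  choose δ hδ using hdq
  -- the rational nilpotent element
  obtain ⟨α, β, γ, hn, hq⟩ := exists_d hK.conics (Φ x) (Φ y) hDK
    (t x ^ 2 - 4 * δ x : ℤ) (t y ^ 2 - 4 * δ y : ℤ) (t (x * y) ^ 2 - 4 * δ (x * y) : ℤ)
    (4 * t (x * y) - 2 * t x * t y : ℤ) (4 * t (x * (x * y)) - 2 * t x * t (x * y) : ℤ)
    (4 * t (y * (x * y)) - 2 * t y * t (x * y) : ℤ)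
    (by rw [htt, hδ]; push_cast; ring) (by rw [htt, hδ]; push_cast; ring)
    (by rw [← map_mul, htt, hδ]; push_cast; ring)
    (by rw [← map_mul, htt, htt, htt]; push_cast; ring)
    (by rw [← map_mul, ← map_mul, htt, htt, htt]; push_cast; ring)
    (by rw [← map_mul, ← map_mul, htt, htt, htt]; push_cast; ring)
  obtain ⟨d, hd'⟩ : ∃ d, D (Φ x) (Φ y) (α : K) β γ = d := ⟨_, rfl⟩
  have d11 : d 1 1 = - d 0 0 := by rw [← hd', D11, D00]
  rw [hd'] at hn hq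
  -- the traces
  have hr : ∀ h : H, ∃ r : ℚ, tr (d * Φ h) = r := by
    intro h
    refine ⟨α * (2 * t (x * h) - t x * t h) + β * (2 * t (y * h) - t y * t h) +
      γ * (2 * t (x * y * h) - t (x * y) * t h), ?_⟩
    rw [← hd', tr_D, ← map_mul, ← map_mul, ← map_mul, ← map_mul, htt, htt, htt, htt, htt, htt, htt]
    push_cast
    ring
  choose r hr using hr
  obtain ⟨h, hh⟩ : ∃ h : H, tr (d * Φ h) ≠ 0 := by
    by_contra hall
    push Not at hall
    have k1 := hall 1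
    have k2 := hall x
    have k3 := hall y
    have k4 := hall (x * y)
    rw [map_one, mul_one, tr] at k1
    rw [map_mul] at k4
    rw [tr, mulE d, mulE d] at k2 k3 k4
    obtain ⟨r1, r2, r3, r4⟩ := H22.G.nondeg (Φ x) (Φ y) hDK (d 0 0) (d 0 1) (d 1 0) (d 1 1)
      k1 (by linear_combination k2) (by linear_combination k3) (by linear_combination k4)
    rcases hn with h | h
    · exact h r2
    · exact h r3
  obtain ⟨u0, u1, l, hl, hu, e00, e01, e10⟩ := nilp (d 0 0) (d 0 1) (d 1 0) hq hn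
  have e11 : d 1 1 = l * (u0 * u1) := by rw [d11, e00, neg_neg]
  -- the new basis
  let S : Matrix (Fin 2) (Fin 2) K := Matrix.of ![![u0, Φ h 0 0 * u0 + Φ h 0 1 * u1],
    ![u1, Φ h 1 0 * u0 + Φ h 1 1 * u1]]
  have hS : S.det ≠ 0 := by
    intro h0
    apply hh
    rw [tr_d u0 u1 l d _ e00 e01 e10 e11]
    rw [Matrix.det_fin_two] at h0
    simp only [S, Matrix.of_apply, Matrix.cons_val', Matrix.cons_val_zero, Matrix.cons_val_one,
      Matrix.cons_val_fin_one] at h0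
    linear_combination l * h0
  let SU : Matrix.GeneralLinearGroup (Fin 2) K := Matrix.GeneralLinearGroup.mkOfDetNeZero S hS
  have hSU : (SU : Matrix (Fin 2) (Fin 2) K) = S := rfl
  let φ' : H →* Matrix.GeneralLinearGroup (Fin 2) K := (MulAut.conj SU⁻¹).toMonoidHom.comp φ
  have hφ'1 : ∀ g, φ' g = SU⁻¹ * φ g * SU := fun g => by
    show SU⁻¹ * φ g * SU⁻¹⁻¹ = _
    rw [inv_inv]
  have hφ'2 : ∀ g, φ' g = SU⁻¹ * φ g * (SU⁻¹)⁻¹ := fun g => rfl
  have hent : ∀ g i j, ∃ q : ℚ, (φ' g : Matrix (Fin 2) (Fin 2) K) i j = q := by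
    intro g
    have hadj : ∀ k : H, adj (Φ k) * Φ h = (δ k : K) • Φ (k⁻¹ * h) := fun k => by
      rw [H22.G.adj_eq, Matrix.smul_mul, map_mul, hδ]
    have hτ : (r h : K) ≠ 0 := by rw [← hr]; exact hh
    let R : Matrix (Fin 2) (Fin 2) ℚ := Matrix.of ![
      ![δ g * r (g⁻¹ * h) / r h, δ (g * h) * r ((g * h)⁻¹ * h) / r h],
      ![r g / r h, r (g * h) / r h]]
    let RK : Matrix (Fin 2) (Fin 2) K := R.map (fun q : ℚ => (q : K))
    have hSR : S * RK = Φ g * S := by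
      refine SR u0 u1 l d (Φ h) (Φ g) RK e00 e01 e10 e11 hh ?_ ?_ ?_ ?_
      · rw [hadj, Matrix.mul_smul, H22.G.tr_smul, hr, hr]
        show ((δ g * r (g⁻¹ * h) / r h : ℚ) : K) * _ = _
        push_cast
        field_simp
      · rw [hr, hr]
        show ((r g / r h : ℚ) : K) * _ = _
        push_cast
        field_simp
      · rw [← map_mul, hadj, Matrix.mul_smul, H22.G.tr_smul, hr, hr]
        show ((δ (g * h) * r ((g * h)⁻¹ * h) / r h : ℚ) : K) * _ = _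
        push_cast
        field_simp
      · rw [← map_mul, hr, hr]
        show ((r (g * h) / r h : ℚ) : K) * _ = _
        push_cast
        field_simp
    have h2 : (φ' g : Matrix (Fin 2) (Fin 2) K) = RK := by
      rw [hφ'1]
      show (SU⁻¹ : Matrix.GeneralLinearGroup (Fin 2) K).1 * (φ g).1 * SU.1 = RK
      rw [Matrix.mul_assoc, show (φ g).1 * SU.1 = S * RK from by rw [hSR, hΦ]; rfl, ← hSU,
        ← Matrix.mul_assoc]
      show (SU⁻¹ : Matrix.GeneralLinearGroup (Fin 2) K).1 * SU.1 * RK = RK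
      rw [Units.inv_mul, Matrix.one_mul]
    intro i j
    exact ⟨R i j, by rw [h2]; rfl⟩
  let A : Subring K := (Rat.castHom K).range
  let e : ℚ ≃+* A := RingEquiv.ofBijective (Rat.castHom K).rangeRestrict
    ⟨fun a b h => (Rat.castHom K).injective (congrArg Subtype.val h),
      (Rat.castHom K).rangeRestrict_surjective⟩
  refine H22.G.stabGL htf A e.symm.toRingHom hK.units φ' ?_ ?_ ?_ ?_
  · exact (MulEquiv.injective (MulAut.conj SU⁻¹)).comp hφ
  · intro g i j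
    obtain ⟨q, hq⟩ := hent g i j
    rw [hq]
    exact ⟨q, rfl⟩
  · intro g
    obtain ⟨s, hs⟩ := ht g
    refine ⟨s, ?_⟩
    rw [← hs, hφ'2]
    exact Matrix.trace_units_conj SU⁻¹ _
  · intro g
    have h1 : Matrix.det (φ' g : Matrix (Fin 2) (Fin 2) K) =
        Matrix.det (φ g : Matrix (Fin 2) (Fin 2) K) := by
      rw [hφ'2]
      exact Matrix.det_units_conj SU⁻¹ _
    rw [h1]
    exact hd g

end Pool.Agent.NegK.NT.H70
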