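import Pool.Agent.Lib.MP_28303a_al.NT.H70.Stab3
import Pool.Agent.Lib.MP_28303a_al.NT.H66.Val0

/-! # Examples of fields without new algebraic integers and points on rational conics -/

set_option autoImplicit false

namespace Pool.Agent.NegK.NT.H70

universe u v

/-- Points of conics over rings with a homomorphism to `ℚ`. -/
theorem conic_of_hom {K : Type u} [Field K] [CharZero K] {R : Type v} [CommRing R] (j : R →+* K)
    (hj : Function.Injective j) (s : R →+* ℚ) (a b c d e f : ℚ) (x y z : R)
    (h0 : x = 1 ∨ y = 1 ∨ z = 1)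
    (h : (a : K) * j x ^ 2 + b * j y ^ 2 + c * j z ^ 2 +
      d * (j x * j y) + e * (j x * j z) + f * (j y * j z) = 0) :
    ∃ x y z : ℚ, (x ≠ 0 ∨ y ≠ 0 ∨ z ≠ 0) ∧ a * x ^ 2 + b * y ^ 2 + c * z ^ 2 +
      d * (x * y) + e * (x * z) + f * (y * z) = 0 := by
  obtain ⟨M, hM, a', b', c', d', e', f', ha, hb, hc, hd, he, hf⟩ : ∃ M : ℤ, M ≠ 0 ∧
      ∃ a' b' c' d' e' f' : ℤ, (M : ℚ) * a = a' ∧ (M : ℚ) * b = b' ∧ (M : ℚ) * c = c' ∧
        (M : ℚ) * d = d' ∧ (M : ℚ) * e = e' ∧ (M : ℚ) * f = f' := by
    have key : ∀ q : ℚ, (q.den : ℚ) * q = q.num := fun q => Rat.den_mul_eq_num q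
    refine ⟨a.den * b.den * c.den * d.den * e.den * f.den, ?_,
      a.num * b.den * c.den * d.den * e.den * f.den, a.den * b.num * c.den * d.den * e.den * f.den,
      a.den * b.den * c.num * d.den * e.den * f.den, a.den * b.den * c.den * d.num * e.den * f.den,
      a.den * b.den * c.den * d.den * e.num * f.den, a.den * b.den * c.den * d.den * e.den * f.num,
      ?_, ?_, ?_, ?_, ?_, ?_⟩
    · have h1 := a.den_nz
      have h2 := b.den_nz
      have h3 := c.den_nz
      have h4 := d.den_nz
      have h5 := e.den_nz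
      have h6 := f.den_nz
      positivity
    · push_cast; rw [← key a]; ring
    · push_cast; rw [← key b]; ring
    · push_cast; rw [← key c]; ring
    · push_cast; rw [← key d]; ring
    · push_cast; rw [← key e]; ring
    · push_cast; rw [← key f]; ring
  have cast : ∀ (q : ℚ) (n : ℤ), (M : ℚ) * q = n → (M : K) * (q : K) = n := by
    intro q n hq
    have := congrArg (fun q : ℚ => (q : K)) hq
    simpa using this
  have h1 : (a' : R) * x ^ 2 + b' * y ^ 2 + c' * z ^ 2 + d' * (x * y) + e' * (x * z) +
      f' * (y * z) = 0 := by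
    apply hj
    simp only [map_add, map_mul, map_pow, map_intCast, map_zero]
    rw [← cast a a' ha, ← cast b b' hb, ← cast c c' hc, ← cast d d' hd, ← cast e e' he,
      ← cast f f' hf]
    linear_combination (M : K) * h
  have h2 := congrArg s h1
  simp only [map_add, map_mul, map_pow, map_intCast, map_zero] at h2
  rw [← ha, ← hb, ← hc, ← hd, ← he, ← hf] at h2
  refine ⟨s x, s y, s z, ?_, ?_⟩
  · rcases h0 with rfl | rfl | rfl
    · exact Or.inl (by rw [map_one]; exact one_ne_zero)
    · exact Or.inr (Or.inl (by rw [map_one]; exact one_ne_zero))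
    · exact Or.inr (Or.inr (by rw [map_one]; exact one_ne_zero))
  · have hM' : (M : ℚ) ≠ 0 := by exact_mod_cast hM
    refine mul_left_cancel₀ hM' ?_
    linear_combination h2

theorem charZero_of {R : Type u} [CommRing R] (s : R →+* ℚ) : CharZero R :=
  ⟨fun m n h => by
    have h1 := congrArg s h
    rw [map_natCast, map_natCast] at h1
    exact_mod_cast h1⟩

theorem int_of_integral {q : ℚ} (h : IsIntegral ℤ q) : ∃ n : ℤ, q = n := by
  obtain ⟨n, hn⟩ := IsIntegrallyClosed.isIntegral_iff.1 h
  exact ⟨n, hn.symm⟩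

/-- The property passes to subfields. -/
theorem rig_of_hom {K : Type u} [Field K] {L : Type v} [Field L] (ι : L →+* K) (hK : Rig K) :
    Rig L := by
  have := hK.char
  have hL : CharZero L := ⟨fun m n h => by
    have h1 := congrArg ι h
    rw [map_natCast, map_natCast] at h1
    exact_mod_cast h1⟩
  refine ⟨hL, fun a ha => ?_, fun a b c d e f h => ?_⟩
  · obtain ⟨z, hz⟩ := hK.int (ι a) (map_isIntegral_int ι ha)
    exact ⟨z, ι.injective (by rw [hz, map_intCast])⟩
  · obtain ⟨x, y, z, h0, h1⟩ := h
    refine hK.conics a b c d e f ⟨ι x, ι y, ι z, ?_, ?_⟩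
    · exact h0.imp (fun h => (map_ne_zero ι).2 h)
        (fun h => h.imp (fun h => (map_ne_zero ι).2 h) fun h => (map_ne_zero ι).2 h)
    · have h2 := congrArg ι h1
      simpa only [map_add, map_mul, map_pow, map_ratCast, map_zero] using h2

/-- Fields with a place with values in `ℚ`. -/
theorem rig_of_place {K : Type u} [Field K] (O : ValuationSubring K) (s : O →+* ℚ) : Rig K := by
  have hO := charZero_of s
  have hK : CharZero K := ⟨fun m n h => by
    have h1 : (m : O) = n := Subtype.ext (by simpa using h)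
    exact_mod_cast h1⟩
  refine ⟨hK, fun a ha => ?_, fun a b c d e f h => ?_⟩
  · obtain ⟨b, rfl⟩ := IsIntegrallyClosed.isIntegral_iff.1 (ha.tower_top (A := O))
    have hb : IsIntegral ℤ b := (isIntegral_algebraMap_iff (IsFractionRing.injective O K)).1 ha
    obtain ⟨n, hn⟩ := int_of_integral (map_isIntegral_int s hb)
    have hc : IsIntegral ℤ (b - n) := hb.sub (isIntegral_algebraMap (x := n))
    by_cases h0 : b - n = 0
    · refine ⟨n, ?_⟩
      rw [sub_eq_zero.1 h0]
      exact map_intCast (algebraMap O K) n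
    · exfalso
      have hcK : IsIntegral ℤ (algebraMap O K (b - n)) := hc.algebraMap
      have h0K : algebraMap O K (b - n) ≠ 0 := fun h =>
        h0 (IsFractionRing.injective O K (h.trans (map_zero _).symm))
      refine minpoly.coeff_zero_ne_zero (A := ℚ) (hcK.tower_top (A := ℚ)) h0K ?_
      rw [minpoly.isIntegrallyClosed_eq_field_fractions' ℚ hcK, Polynomial.coeff_map]
      have h2 : Polynomial.aeval (b - n) (minpoly ℤ (algebraMap O K (b - n))) = 0 := by
        apply IsFractionRing.injective O K
        rw [map_zero, ← Polynomial.aeval_algebraMap_apply]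
        exact minpoly.aeval ℤ _
      have h1 := congrArg s h2
      rw [Polynomial.aeval_def, Polynomial.hom_eval₂, map_zero, map_sub, map_intCast, hn,
        sub_self, Polynomial.eval₂_at_zero] at h1
      rw [RingHom.ext_int (s.comp (algebraMap ℤ O)) (algebraMap ℤ ℚ)] at h1
      exact h1
  · obtain ⟨x, y, z, h0, h1⟩ := h
    have hmem : ∀ u t : K, O.valuation u ≤ O.valuation t → t ≠ 0 → u / t ∈ O := by
      intro u t hut ht
      rw [← O.valuation_le_one_iff, map_div₀]
      exact div_le_one_of_le₀ hut zero_le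
    obtain ⟨t, ht, hx, hy, hz, h2⟩ : ∃ t : K, t ≠ 0 ∧ O.valuation x ≤ O.valuation t ∧
        O.valuation y ≤ O.valuation t ∧ O.valuation z ≤ O.valuation t ∧
        (x = t ∨ y = t ∨ z = t) := by
      have hne : ∀ u v : K, u ≠ 0 → O.valuation u ≤ O.valuation v → v ≠ 0 := by
        rintro u v hu huv rfl
        rw [map_zero] at huv
        exact hu ((map_eq_zero _).1 (le_antisymm huv zero_le))
      rcases le_total (O.valuation x) (O.valuation y) with hxy | hxy
      · rcases le_total (O.valuation y) (O.valuation z) with hyz | hyz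
        · refine ⟨z, ?_, hxy.trans hyz, hyz, le_rfl, Or.inr (Or.inr rfl)⟩
          rcases h0 with h | h | h
          · exact hne x z h (hxy.trans hyz)
          · exact hne y z h hyz
          · exact h
        · refine ⟨y, ?_, hxy, le_rfl, hyz, Or.inr (Or.inl rfl)⟩
          rcases h0 with h | h | h
          · exact hne x y h hxy
          · exact h
          · exact hne z y h hyz
      · rcases le_total (O.valuation x) (O.valuation z) with hxz | hxz
        · refine ⟨z, ?_, hxz, hxy.trans hxz, le_rfl, Or.inr (Or.inr rfl)⟩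
          rcases h0 with h | h | h
          · exact hne x z h hxz
          · exact hne y z h (hxy.trans hxz)
          · exact h
        · refine ⟨x, ?_, le_rfl, hxy, hxz, Or.inl rfl⟩
          rcases h0 with h | h | h
          · exact h
          · exact hne y x h hxy
          · exact hne z x h hxz
    refine conic_of_hom O.subtype Subtype.val_injective s a b c d e f
      ⟨x / t, hmem x t hx ht⟩ ⟨y / t, hmem y t hy ht⟩ ⟨z / t, hmem z t hz ht⟩ ?_ ?_
    · rcases h2 with rfl | rfl | rfl
      · exact Or.inl (Subtype.ext (div_self ht))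
      · exact Or.inr (Or.inl (Subtype.ext (div_self ht)))
      · exact Or.inr (Or.inr (Subtype.ext (div_self ht)))
    · show (a : K) * (x / t) ^ 2 + b * (y / t) ^ 2 + c * (z / t) ^ 2 +
        d * ((x / t) * (y / t)) + e * ((x / t) * (z / t)) + f * ((y / t) * (z / t)) = 0
      field_simp
      linear_combination h1

/-- Fields all of whose finitely generated subrings have homomorphisms to `ℚ`. -/
theorem rig_of_spec {K : Type u} [Field K]
    (hK : ∀ S : Finset K, Nonempty (Subring.closure (S : Set K) →+* ℚ)) : Rig K := by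
  classical
  have hK0 : CharZero K := by
    obtain ⟨s⟩ := hK ∅
    have := charZero_of s
    exact ⟨fun m n h => by
      have h1 : (m : Subring.closure ((∅ : Finset K) : Set K)) = n := Subtype.ext (by simpa using h)
      exact_mod_cast h1⟩
  refine ⟨hK0, fun a ha => ?_, fun a b c d e f h => ?_⟩
  · let p := minpoly ℤ a
    have hp : p ≠ 0 := minpoly.ne_zero ha
    let S : Finset K := insert a (p.roots.toFinset.image fun n : ℤ => (a - n)⁻¹)
    obtain ⟨s⟩ := hK S
    let R := Subring.closure (S : Set K)
    let a' : R := ⟨a, Subring.subset_closure (Finset.mem_coe.2 (Finset.mem_insert_self _ _))⟩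
    have ha' : Polynomial.aeval a' p = 0 := by
      apply Subtype.ext
      have h1 := minpoly.aeval ℤ a
      have h2 := Polynomial.hom_eval₂ p (algebraMap ℤ R) R.subtype a'
      rw [Polynomial.aeval_def]
      refine Eq.trans h2 ?_
      rw [RingHom.ext_int (R.subtype.comp (algebraMap ℤ R)) (algebraMap ℤ K)]
      exact h1
    have hint : IsIntegral ℤ (s a') := map_isIntegral_int s ⟨p, minpoly.monic ha, ha'⟩
    obtain ⟨n, hn⟩ := int_of_integral hint
    have hroot : p.IsRoot n := by
      have h1 := congrArg s ha'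
      rw [Polynomial.aeval_def, Polynomial.hom_eval₂, hn, map_zero,
        RingHom.ext_int (s.comp (algebraMap ℤ R)) (Int.castRingHom ℚ)] at h1
      have h2 := Polynomial.eval₂_at_apply (Int.castRingHom ℚ) n (p := p)
      rw [eq_intCast, h1, eq_intCast] at h2
      rw [Polynomial.IsRoot]
      exact_mod_cast h2.symm
    refine ⟨n, ?_⟩
    by_contra hne
    have h0 : a - n ≠ 0 := sub_ne_zero.2 hne
    let b' : R := ⟨(a - n)⁻¹, Subring.subset_closure (Finset.mem_coe.2 (Finset.mem_insert_of_mem
      (Finset.mem_image.2 ⟨n, Multiset.mem_toFinset.2 ((Polynomial.mem_roots hp).2 hroot), rfl⟩)))⟩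
    have h1 : b' * (a' - n) = 1 := by
      apply Subtype.ext
      show (a - n)⁻¹ * ((a' - n : R) : K) = 1
      have h2 : ((a' - n : R) : K) = a - n := by
        rw [AddSubgroupClass.coe_sub]
        rfl
      rw [h2, inv_mul_cancel₀ h0]
    have h2 := congrArg s h1
    rw [map_mul, map_sub, hn, map_intCast, sub_self, mul_zero, map_one] at h2
    exact zero_ne_one h2
  · obtain ⟨x, y, z, h0, h1⟩ := h
    obtain ⟨t, ht, h2⟩ : ∃ t : K, t ≠ 0 ∧ (x = t ∨ y = t ∨ z = t) := by
      rcases h0 with h | h | h
      · exact ⟨x, h, Or.inl rfl⟩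
      · exact ⟨y, h, Or.inr (Or.inl rfl)⟩
      · exact ⟨z, h, Or.inr (Or.inr rfl)⟩
    obtain ⟨s⟩ := hK {x / t, y / t, z / t}
    have hm : ∀ w ∈ ({x / t, y / t, z / t} : Finset K),
        w ∈ Subring.closure ((({x / t, y / t, z / t} : Finset K)) : Set K) :=
      fun w hw => Subring.subset_closure hw
    refine conic_of_hom (Subring.subtype _) Subtype.val_injective s a b c d e f
      ⟨x / t, hm _ (by simp)⟩ ⟨y / t, hm _ (by simp)⟩ ⟨z / t, hm _ (by simp)⟩ ?_ ?_
    · rcases h2 with rfl | rfl | rfl
      · exact Or.inl (Subtype.ext (div_self ht))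
      · exact Or.inr (Or.inl (Subtype.ext (div_self ht)))
      · exact Or.inr (Or.inr (Subtype.ext (div_self ht)))
    · show (a : K) * (x / t) ^ 2 + b * (y / t) ^ 2 + c * (z / t) ^ 2 +
        d * ((x / t) * (y / t)) + e * ((x / t) * (z / t)) + f * ((y / t) * (z / t)) = 0
      field_simp
      linear_combination h1

/-- Fields of rational functions over `ℚ` in any set of variables. -/
theorem rig_ratFunc (σ : Type*) (K : Type u) [Field K] [Algebra (MvPolynomial σ ℤ) K]
    [IsFractionRing (MvPolynomial σ ℤ) K] : Rig K :=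
  rig_of_spec fun S => H66.spec0 σ K S

section hahn

variable (G : Type u) [AddCommGroup G] [LinearOrder G] [IsOrderedAddMonoid G]

theorem coeff_mul_zero_of {x y : HahnSeries G ℚ} (hx : ∀ g < 0, x.coeff g = 0)
    (hy : ∀ g < 0, y.coeff g = 0) : (x * y).coeff 0 = x.coeff 0 * y.coeff 0 := by
  rw [HahnSeries.coeff_mul]
  refine Finset.sum_eq_single (0, 0) ?_ ?_
  · rintro ⟨i, j⟩ h hij
    rw [Finset.mem_antidiagonal] at h
    obtain ⟨hi, hj, h1⟩ := h
    have hi0 : 0 ≤ i := not_lt.1 fun h => hi (hx i h)
    have hj0 : 0 ≤ j := not_lt.1 fun h => hj (hy j h)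
    obtain ⟨h2, h3⟩ := (add_eq_zero_iff_of_nonneg hi0 hj0).1 h1
    exact absurd (Prod.ext h2 h3) hij
  · intro h
    rw [Finset.mem_antidiagonal] at h
    by_contra h1
    exact h ⟨left_ne_zero_of_mul h1, right_ne_zero_of_mul h1, add_zero 0⟩

/-- The valuation ring of the field of Hahn series. -/
noncomputable def hahnO : ValuationSubring (HahnSeries G ℚ) where
  carrier := {x | ∀ g < 0, x.coeff g = 0}
  zero_mem' g _ := rfl
  one_mem' g hg := by rw [HahnSeries.coeff_one, if_neg hg.ne]
  add_mem' := by
    intro x y hx hy g hg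
    rw [HahnSeries.coeff_add, hx g hg, hy g hg, add_zero]
  neg_mem' := by
    intro x hx g hg
    rw [HahnSeries.coeff_neg, hx g hg, neg_zero]
  mul_mem' := by
    intro x y hx hy g hg
    rw [HahnSeries.coeff_mul]
    refine Finset.sum_eq_zero ?_
    rintro ⟨i, j⟩ h
    rw [Finset.mem_antidiagonal] at h
    obtain ⟨hi, hj, h1⟩ := h
    have hi0 : 0 ≤ i := not_lt.1 fun h => hi (hx i h)
    have hj0 : 0 ≤ j := not_lt.1 fun h => hj (hy j h)
    exact absurd (add_nonneg hi0 hj0) (not_le.2 (h1.trans_lt hg))
  mem_or_inv_mem' x := by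
    by_cases h0 : x = 0
    · left
      rw [h0]
      exact fun g _ => rfl
    · rcases le_or_gt 0 x.order with h | h
      · left
        exact fun g hg => HahnSeries.coeff_eq_zero_of_lt_order (hg.trans_le h)
      · right
        have h1 : x.order + x⁻¹.order = 0 := by
          rw [← HahnSeries.order_mul h0 (inv_ne_zero h0), mul_inv_cancel₀ h0, HahnSeries.order_one]
        have h2 : 0 < x⁻¹.order := by
          rw [← neg_eq_of_add_eq_zero_right h1]
          exact neg_pos.2 h
        exact fun g hg => HahnSeries.coeff_eq_zero_of_lt_order (hg.trans h2)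

/-- The residue map. -/
noncomputable def hahnS : hahnO G →+* ℚ where
  toFun x := x.1.coeff 0
  map_one' := by
    show (1 : HahnSeries G ℚ).coeff 0 = 1
    rw [HahnSeries.coeff_one, if_pos rfl]
  map_mul' x y := coeff_mul_zero_of G x.2 y.2
  map_zero' := rfl
  map_add' x y := rfl

/-- Fields of Hahn series over `ℚ`. -/
theorem rig_hahn : Rig (HahnSeries G ℚ) := rig_of_place (hahnO G) (hahnS G)

end hahn

end Pool.Agent.NegK.NT.H70
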