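import Pool.Agent.Lib.MP_28303a_al.NT.H66.Val0
import Pool.Agent.Lib.MP_28303a_al.NT.H66.Ext

/-! # Valuations of finitely generated fields of characteristic zero

Finitely many discrete valuations of the field of fractions of a finitely generated domain `A` of
characteristic `0`, such that the elements of `A` which are integral for all of them are algebraic
integers. -/

set_option autoImplicit false

namespace Pool.Agent.NegK.NT.H70

universe u

open WithZero Polynomial

open H66 (away exists_vals_away exists_degVal0 ext_vals)

section away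

variable {P : Type*} [CommRing P] {K : Type*} [Field K] [Algebra P K] (g : P)

theorem alg_mem_away (f : P) : algebraMap P K f ∈ away K g := ⟨0, f, by simp⟩

theorem inv_mem_away (h1 : algebraMap P K g ≠ 0) : (algebraMap P K g)⁻¹ ∈ away K g := by
  refine ⟨1, 1, ?_⟩
  rw [pow_one, inv_mul_cancel₀ h1, map_one]

/-- The elements which are integral over `P` after multiplication by a power of `g` have minimal
polynomials with coefficients in `P[1/g]`. -/
theorem coeff_mem_away [IsDomain P] [IsFractionRing P K] [IsIntegrallyClosed P] (hg : g ≠ 0)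
    (L : Type*) [Field L] [Algebra K L] [Algebra P L] [IsScalarTower P K L] (b : L) (n : ℕ)
    (hb : IsIntegral P (algebraMap P L g ^ n * b)) (i : ℕ) :
    (minpoly K b).coeff i ∈ away K g := by
  let R := away K g
  let iPR : Algebra P R := ((algebraMap P K).codRestrict R fun f => alg_mem_away g f).toAlgebra
  have hPR : ∀ f : P, ((algebraMap P R f : R) : K) = algebraMap P K f := fun f => rfl
  have t1 : IsScalarTower P R K := IsScalarTower.of_algebraMap_eq fun f => rfl
  have h1 : algebraMap P K g ≠ 0 := by
    rw [Ne, IsFractionRing.to_map_eq_zero_iff (K := K)]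
    exact hg
  have hgu : (algebraMap P R g) * ⟨(algebraMap P K g)⁻¹, inv_mem_away g h1⟩ = 1 :=
    Subtype.ext (mul_inv_cancel₀ h1)
  have hloc : IsLocalization (Submonoid.powers g) R := by
    rw [isLocalization_iff]
    refine ⟨?_, ?_, ?_⟩
    · rintro ⟨_, m, rfl⟩
      show IsUnit (algebraMap P R (g ^ m))
      rw [map_pow]
      exact (IsUnit.of_mul_eq_one _ hgu).pow m
    · rintro ⟨z, m, f, hf⟩
      refine ⟨⟨f, ⟨g ^ m, m, rfl⟩⟩, Subtype.ext ?_⟩
      show z * algebraMap P K (g ^ m) = algebraMap P K f
      rw [map_pow, hf]
    · intro x y hxy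
      refine ⟨1, ?_⟩
      rw [IsFractionRing.injective P K (congrArg Subtype.val hxy)]
  have hle : Submonoid.powers g ≤ nonZeroDivisors P :=
    powers_le_nonZeroDivisors_of_noZeroDivisors hg
  have i1 : IsIntegrallyClosed R := isIntegrallyClosed_of_isLocalization R (Submonoid.powers g) hle
  have i2 : IsFractionRing R K :=
    IsFractionRing.isFractionRing_of_isDomain_of_isLocalization (Submonoid.powers g) R K
  have t2 : IsScalarTower P R L := IsScalarTower.of_algebraMap_eq fun f => by
    rw [IsScalarTower.algebraMap_apply P K L]
    rfl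
  have h2 : IsIntegral R b := by
    have h3 : IsIntegral R (algebraMap P L g ^ n * b) := hb.tower_top
    have h4 : b = algebraMap R L (⟨(algebraMap P K g)⁻¹, inv_mem_away g h1⟩ ^ n) *
        (algebraMap P L g ^ n * b) := by
      rw [← mul_assoc, map_pow, ← mul_pow, IsScalarTower.algebraMap_apply P R L, ← map_mul,
        mul_comm (_ : R), hgu, map_one, one_pow, one_mul]
    rw [h4]
    exact isIntegral_algebraMap.mul h3
  rw [minpoly.isIntegrallyClosed_eq_field_fractions' K h2, Polynomial.coeff_map]
  exact ((minpoly R b).coeff i).2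

end away

/-- VALG. Finitely many discrete valuations of the field of fractions of a finitely generated
domain of characteristic `0`, whose common integral elements in the domain are algebraic
integers. -/
theorem valg (A : Type u) [CommRing A] [IsDomain A] [CharZero A] (E : Finset A)
    (hE : Subring.closure (E : Set A) = ⊤) (L : Type u) [Field L] [Algebra A L]
    [IsFractionRing A L] :
    ∃ (N : ℕ) (v : Fin N → Valuation L (WithZero (Multiplicative ℤ))),
      ∀ a : A, (∀ i, v i (algebraMap A L a) ≤ 1) → IsIntegral ℤ a := by
  classical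
  obtain ⟨ι, x, hx⟩ := exists_isTranscendenceBasis' ℤ A
  let P := MvPolynomial ι ℤ
  let K := FractionRing P
  let iPA : Algebra P A := (MvPolynomial.aeval x : P →ₐ[ℤ] A).toRingHom.toAlgebra
  have hPA : Function.Injective (algebraMap P A) := hx.1
  have alg1 : Algebra.IsAlgebraic P A := by
    have h1 : Algebra.IsAlgebraic (Algebra.adjoin ℤ (Set.range x)) A := hx.isAlgebraic
    refine Algebra.IsAlgebraic.of_ringHom_of_comp_eq (S := Algebra.adjoin ℤ (Set.range x)) (B := A)
      (hx.1.aevalEquiv : P →+* _) (RingHom.id A) hx.1.aevalEquiv.surjective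
      Function.injective_id ?_
    ext y
    · simp
    · simp [RingHom.algebraMap_toAlgebra]
  let i3 : Algebra P L := ((algebraMap A L).comp (algebraMap P A)).toAlgebra
  have i4 : IsScalarTower P A L := IsScalarTower.of_algebraMap_eq fun _ => rfl
  have hPL : Function.Injective (algebraMap P L) := (IsFractionRing.injective A L).comp hPA
  have i5' : FaithfulSMul P L := (faithfulSMul_iff_algebraMap_injective P L).2 hPL
  let i6 : Algebra K L := FractionRing.liftAlgebra P L
  have i7 : IsScalarTower P K L := inferInstance
  obtain ⟨g, hg, hgE⟩ := Algebra.IsAlgebraic.exists_integral_multiples P E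
  -- the elements of `A` are integral over `P` after multiplication by a power of `g`
  have hint : ∀ a : A, ∃ n : ℕ, IsIntegral P (algebraMap P A g ^ n * a) := by
    intro a
    have ha : a ∈ Subring.closure (E : Set A) := by rw [hE]; trivial
    have hgi : IsIntegral P (algebraMap P A g) := isIntegral_algebraMap
    induction ha using Subring.closure_induction with
    | mem e he =>
      refine ⟨1, ?_⟩
      rw [pow_one, ← Algebra.smul_def]
      exact hgE e he
    | zero => exact ⟨0, by rw [mul_zero]; exact isIntegral_zero⟩
    | one => exact ⟨0, by rw [pow_zero, mul_one]; exact isIntegral_one⟩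
    | add a b _ _ iha ihb =>
      obtain ⟨n, hn⟩ := iha
      obtain ⟨m, hm⟩ := ihb
      refine ⟨n + m, ?_⟩
      have h1 : algebraMap P A g ^ (n + m) * (a + b) = algebraMap P A g ^ m *
          (algebraMap P A g ^ n * a) + algebraMap P A g ^ n * (algebraMap P A g ^ m * b) := by
        rw [pow_add]
        ring
      rw [h1]
      exact ((hgi.pow m).mul hn).add ((hgi.pow n).mul hm)
    | neg a _ iha =>
      obtain ⟨n, hn⟩ := iha
      exact ⟨n, by rw [mul_neg]; exact hn.neg⟩
    | mul a b _ _ iha ihb =>
      obtain ⟨n, hn⟩ := iha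
      obtain ⟨m, hm⟩ := ihb
      refine ⟨n + m, ?_⟩
      have h1 : algebraMap P A g ^ (n + m) * (a * b) = (algebraMap P A g ^ n * a) *
          (algebraMap P A g ^ m * b) := by
        rw [pow_add]
        ring
      rw [h1]
      exact hn.mul hm
  -- `L` is a finite extension of `K`
  have halg : ∀ a : A, IsIntegral K (algebraMap A L a) := by
    intro a
    have h1 : IsAlgebraic P (algebraMap A L a) := (Algebra.IsAlgebraic.isAlgebraic a).algebraMap
    exact ((IsFractionRing.isAlgebraic_iff P K L).1 h1).isIntegral
  have hfd : FiniteDimensional K L := by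
    let S : Set L := algebraMap A L '' (E : Set A)
    have hS : Finite S := (E.finite_toSet.image _).to_subtype
    have h1 : FiniteDimensional K (IntermediateField.adjoin K S) := by
      refine IntermediateField.finiteDimensional_adjoin ?_
      rintro _ ⟨e, _, rfl⟩
      exact halg e
    have h2 : ∀ a : A, algebraMap A L a ∈ IntermediateField.adjoin K S := by
      intro a
      have ha : a ∈ Subring.closure (E : Set A) := by rw [hE]; trivial
      induction ha using Subring.closure_induction with
      | mem e he => exact IntermediateField.subset_adjoin K S ⟨e, he, rfl⟩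
      | zero => rw [map_zero]; exact zero_mem _
      | one => rw [map_one]; exact one_mem _
      | add a b _ _ iha ihb => rw [map_add]; exact add_mem iha ihb
      | neg a _ iha => rw [map_neg]; exact neg_mem iha
      | mul a b _ _ iha ihb => rw [map_mul]; exact mul_mem iha ihb
    have h3 : IntermediateField.adjoin K S = ⊤ := by
      rw [eq_top_iff]
      rintro y -
      obtain ⟨a, b, hb, rfl⟩ := IsFractionRing.div_surjective (A := A) y
      exact div_mem (h2 a) (h2 b)
    rw [h3] at h1
    exact Module.Finite.equiv (IntermediateField.topEquiv (F := K) (E := L)).toLinearEquiv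
  have hchar : CharZero K := charZero_of_injective_algebraMap (R := P) (IsFractionRing.injective P K)
  -- the valuations
  obtain ⟨N, v, hv⟩ := exists_vals_away (K := K) g hg
  obtain ⟨w, hw⟩ := exists_degVal0 ι ℤ K
  let v' : Fin (N + 1) → Valuation K (WithZero (Multiplicative ℤ)) := Fin.cons w v
  choose m u hu using fun i => ext_vals K L (v' i)
  let e := Fintype.equivFin (Σ i, Fin (m i))
  refine ⟨Fintype.card (Σ i, Fin (m i)), fun j => u (e.symm j).1 (e.symm j).2, fun a ha => ?_⟩
  have h1 : ∀ i, IsIntegral (v' i).valuationSubring (algebraMap A L a) := by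
    intro i
    refine hu i _ fun j => ?_
    have h2 : u (e.symm (e ⟨i, j⟩)).1 (e.symm (e ⟨i, j⟩)).2 (algebraMap A L a) ≤ 1 := ha (e ⟨i, j⟩)
    rwa [e.symm_apply_apply] at h2
  have h2 : ∀ i j, v' i ((minpoly K (algebraMap A L a)).coeff j) ≤ 1 := by
    intro i j
    rw [minpoly.isIntegrallyClosed_eq_field_fractions' K (h1 i), Polynomial.coeff_map]
    exact ((minpoly (v' i).valuationSubring (algebraMap A L a)).coeff j).2
  have h3 : ∀ j, (minpoly K (algebraMap A L a)).coeff j ∈ away K g := by
    intro j
    obtain ⟨n, hn⟩ := hint a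
    refine coeff_mem_away g hg L (algebraMap A L a) n ?_ j
    have h4 := hn.algebraMap (B := L)
    rwa [map_mul, map_pow, ← IsScalarTower.algebraMap_apply P A L] at h4
  have h4 : ∀ j, ∃ c : ℤ, algebraMap ℤ K c = (minpoly K (algebraMap A L a)).coeff j := by
    intro j
    obtain ⟨f, hf⟩ := hv _ (h3 j) fun i => h2 i.succ j
    obtain ⟨c, rfl⟩ := hw f (by rw [← hf]; exact h2 0 j)
    refine ⟨c, ?_⟩
    rw [hf]
    exact IsScalarTower.algebraMap_apply ℤ P K c
  obtain ⟨q, hq1, _, hq2⟩ := Polynomial.lifts_and_natDegree_eq_and_monic
    ((Polynomial.lifts_iff_coeff_lifts _).2 h4) (minpoly.monic (halg a))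
  have h5 : IsIntegral ℤ (algebraMap A L a) := by
    refine ⟨q, hq2, ?_⟩
    have h6 := minpoly.aeval K (algebraMap A L a)
    rw [← hq1, Polynomial.aeval_def, Polynomial.eval₂_map] at h6
    rwa [RingHom.ext_int ((algebraMap K L).comp (algebraMap ℤ K)) (algebraMap ℤ L)] at h6
  exact (isIntegral_algebraMap_iff (IsFractionRing.injective A L)).1 h5

end Pool.Agent.NegK.NT.H70
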