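import Pool.Agent.Lib.MP_28303a_al.NT.A.Iface

/-! # CONS and ISO: perfect complexes without homology -/

set_option autoImplicit false

namespace Pool.Agent.NegK.NT.H70

universe u

open CategoryTheory Limits Pretriangulated

section

variable {k : Type u} [Ring k] {Γ : Type u} [Group Γ] {B : Type u} [MulAction Γ B] {P : Pre Γ B}

/-- The functor `ev` on homotopy categories. -/
noncomputable abbrev evK (k : Type u) [Ring k] {Γ : Type u} [Group Γ] {B : Type u} [MulAction Γ B]
    (P : Pre Γ B) : KK k P ⥤ HomotopyCategory (Fn k P) (ComplexShape.up ℤ) :=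
  (Loc.ev (k := k) (P := P)).mapHomotopyCategory (ComplexShape.up ℤ)

/-- The complexes of functors of finite complexes are K-projective. -/
theorem isKProjective_ev (hpr : ∀ A : Loc k P, Projective (Loc.ev.obj A))
    (E : CochainComplex (Loc k P) ℤ) (hE : FinC E) :
    CochainComplex.IsKProjective (((Loc.ev (k := k) (P := P)).mapHomologicalComplex
      (ComplexShape.up ℤ)).obj E : CochainComplex (Fn k P) ℤ) := by
  obtain ⟨a, b, hab⟩ := hE.bdd
  have h1 : ∀ n : ℤ, Projective ((((Loc.ev (k := k) (P := P)).mapHomologicalComplex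
      (ComplexShape.up ℤ)).obj E : CochainComplex (Fn k P) ℤ).X n) := fun n => hpr (E.X n)
  have h2 : CochainComplex.IsStrictlyLE (((Loc.ev (k := k) (P := P)).mapHomologicalComplex
      (ComplexShape.up ℤ)).obj E) b := by
    rw [CochainComplex.isStrictlyLE_iff]
    intro i hi
    have h3 := hab i (Or.inr hi)
    exact (Loc.ev (k := k) (P := P)).map_isZero (Loc.isZero_of_isEmpty (E.X i))
  exact CochainComplex.isKProjective_of_projective _ b

/-- CONS. -/
theorem cons (hE : EvpStatement.{u}) : ConsStatement.{u} := by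
  intro k _ Γ _ B _ P X hX h0
  obtain ⟨h1, h2, h3⟩ := hE k Γ B P
  obtain ⟨E, hfin, ⟨ρ⟩⟩ := hX
  have h4 := isKProjective_ev h3 E hfin
  have h5 : (HomotopyCategory.subcategoryAcyclic (Fn k P)) ((evK k P).obj X) := by
    rw [HomotopyCategory.mem_subcategoryAcyclic_iff]
    exact h0
  have h6 : (evK k P).map ρ.r = 0 :=
    CochainComplex.IsKProjective.leftOrthogonal
      (((Loc.ev (k := k) (P := P)).mapHomologicalComplex (ComplexShape.up ℤ)).obj E)
      ((evK k P).map ρ.r) h5
  have h7 : ρ.r = 0 := (evK k P).map_injective (by rw [h6, Functor.map_zero])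
  rw [IsZero.iff_id_eq_zero, ← ρ.retract, h7, comp_zero]

/-- ISO. -/
theorem iso (hC : ConsStatement.{u}) (hP : PerStatement.{u}) : IsoStatement.{u} := by
  intro k _ Γ _ B _ P X Y f hX hY hf
  obtain ⟨hP1, hP2⟩ := hP k Γ B P
  obtain ⟨Z, g, h, hT⟩ := distinguished_cocone_triangle f
  have hZ : Per Z := hP2 _ (rot_of_distTriang _ hT) hY (hP1 X 1 hX)
  have h1 : HomotopyCategory.quasiIso (Fn k P) (ComplexShape.up ℤ) ((evK k P).map f) := by
    intro n
    exact hf n
  have h2 : (HomotopyCategory.subcategoryAcyclic (Fn k P)) ((evK k P).obj Z) := by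
    rw [HomotopyCategory.quasiIso_eq_trW_subcategoryAcyclic] at h1
    exact (ObjectProperty.trW_iff_of_distinguished _ _ ((evK k P).map_distinguished _ hT)).1 h1
  have h3 : IsZero Z := hC k Γ B P Z hZ fun n =>
    (HomotopyCategory.mem_subcategoryAcyclic_iff _).1 h2 n
  exact (Triangle.isZero₃_iff_isIso₁ _ hT).1 h3

end

end Pool.Agent.NegK.NT.H70
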