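import Mathlib

/-!
# SPEC: specialisation of a finitely generated ring to algebraic numbers

For a finite subset `E` of a field of characteristic `0` there is a ring homomorphism from the subring
generated by `E` to `AlgebraicClosure ℚ` whose kernel contains no nonzero algebraic element.
-/

set_option autoImplicit false

universe u

namespace Pool.Agent.NegK.NT.H70

/-- A nontrivial algebra of finite type over `ℚ` has a homomorphism to `AlgebraicClosure ℚ`. -/
theorem exists_hom_of_fg (A : Type u) [CommRing A] [Algebra ℚ A] [Nontrivial A]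
    (hA : Algebra.FiniteType ℚ A) : Nonempty (A →ₐ[ℚ] AlgebraicClosure ℚ) := by
  obtain ⟨m, hm⟩ := Ideal.exists_maximal A
  have := hm
  let _ : Field (A ⧸ m) := Ideal.Quotient.field m
  have : Algebra.FiniteType ℚ (A ⧸ m) :=
    hA.of_surjective (Ideal.Quotient.mkₐ ℚ m) (Ideal.Quotient.mkₐ_surjective ℚ m)
  have : Module.Finite ℚ (A ⧸ m) := finite_of_finite_type_of_isJacobsonRing ℚ (A ⧸ m)
  have : Algebra.IsAlgebraic ℚ (A ⧸ m) := Algebra.IsAlgebraic.of_finite ℚ (A ⧸ m)
  exact ⟨(IsAlgClosed.lift : (A ⧸ m) →ₐ[ℚ] AlgebraicClosure ℚ).comp (Ideal.Quotient.mkₐ ℚ m)⟩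

/-- SPEC. -/
theorem spec (Om : Type u) [Field Om] [CharZero Om] (E : Set Om) (hE : E.Finite) :
    ∃ s : Subring.closure E →+* AlgebraicClosure ℚ,
      ∀ x : Subring.closure E, IsAlgebraic ℤ (x : Om) → s x = 0 → x = 0 := by
  have hle : Subring.closure E ≤ (Algebra.adjoin ℚ E).toSubring :=
    Subring.closure_le.2 fun x hx => Algebra.subset_adjoin hx
  have hfg : Algebra.FiniteType ℚ (Algebra.adjoin ℚ E) :=
    (Subalgebra.fg_iff_finiteType _).1 ⟨hE.toFinset, by simp⟩
  obtain ⟨f⟩ := exists_hom_of_fg (Algebra.adjoin ℚ E) hfg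
  let inc : Subring.closure E →+* Algebra.adjoin ℚ E := Subring.inclusion hle
  refine ⟨(f : Algebra.adjoin ℚ E →+* AlgebraicClosure ℚ).comp inc, fun x hx h0 => ?_⟩
  by_contra hx0
  have hxQ : IsAlgebraic ℚ (x : Om) := hx.extendScalars (FaithfulSMul.algebraMap_injective ℤ ℚ)
  have hinv : ((x : Om))⁻¹ ∈ Algebra.adjoin ℚ E :=
    Subalgebra.inv_mem_of_algebraic (Algebra.adjoin ℚ E) (x := inc x) hxQ
  have hxne : (x : Om) ≠ 0 := fun h => hx0 (Subtype.ext h)
  have h1 : inc x * ⟨((x : Om))⁻¹, hinv⟩ = 1 := Subtype.ext (mul_inv_cancel₀ hxne)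
  have h2 := congrArg f h1
  rw [map_mul, map_one] at h2
  have h3 : f (inc x) = 0 := h0
  rw [h3, zero_mul] at h2
  exact zero_ne_one h2

end Pool.Agent.NegK.NT.H70
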