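import Mathlib

/-!
# THETA: embedding a finitely generated abelian group into the units of `AlgebraicClosure ℚ`
-/

set_option autoImplicit false

universe u

namespace Pool.Agent.NegK.NT.H70

/-- The `p`-adic valuation on `ℚˣ` as a homomorphism. -/
noncomputable def vp (p : ℕ) [Fact p.Prime] : ℚˣ →* Multiplicative ℤ where
  toFun q := Multiplicative.ofAdd (padicValRat p (q : ℚ))
  map_one' := by simp
  map_mul' a b :=
    congrArg Multiplicative.ofAdd (padicValRat.mul (Units.ne_zero a) (Units.ne_zero b))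

/-- The `n`-th prime as a unit of `ℚ`. -/
noncomputable def pu (n : ℕ) : ℚˣ :=
  Units.mk0 (Nat.nth Nat.Prime n : ℚ) (Nat.cast_ne_zero.2 (Nat.prime_nth_prime n).ne_zero)

instance (n : ℕ) : Fact (Nat.nth Nat.Prime n).Prime := ⟨Nat.prime_nth_prime n⟩

theorem vp_pu (m n : ℕ) :
    vp (Nat.nth Nat.Prime m) (pu n) = if m = n then Multiplicative.ofAdd 1 else 1 := by
  change Multiplicative.ofAdd (padicValRat (Nat.nth Nat.Prime m) (Nat.nth Nat.Prime n : ℚ)) = _
  by_cases h : m = n
  · subst h
    rw [if_pos rfl, padicValRat.self (Nat.prime_nth_prime m).one_lt]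
  · rw [if_neg h, padicValRat.of_nat, padicValNat_primes]
    · rfl
    · exact fun h' => h (Nat.nth_injective Nat.infinite_setOfPred_prime h')

/-- A finite power of `ℤ` embeds into `ℚˣ`. -/
noncomputable def th0 (J : Type) [Fintype J] : (J → Multiplicative ℤ) →* ℚˣ where
  toFun f := ∏ i, zpowersHom ℚˣ (pu (Fintype.equivFin J i)) (f i)
  map_one' := by simp
  map_mul' a b := by simp [Finset.prod_mul_distrib, zpow_add]

theorem vp_th0 (J : Type) [Fintype J] (f : J → Multiplicative ℤ) (j : J) :
    vp (Nat.nth Nat.Prime (Fintype.equivFin J j)) (th0 J f) = f j := by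
  classical
  change vp _ (∏ i, zpowersHom ℚˣ (pu (Fintype.equivFin J i)) (f i)) = f j
  rw [map_prod]
  have h : ∀ i, vp (Nat.nth Nat.Prime (Fintype.equivFin J j))
      (zpowersHom ℚˣ (pu (Fintype.equivFin J i)) (f i)) = if i = j then f j else 1 := by
    intro i
    rw [zpowersHom_apply, map_zpow, vp_pu]
    by_cases hij : i = j
    · subst hij
      rw [if_pos rfl, if_pos rfl, ← ofAdd_zsmul, smul_eq_mul, mul_one, ofAdd_toAdd]
    · have h2 : ¬ ((Fintype.equivFin J j : Fin (Fintype.card J)) : ℕ) =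
          ((Fintype.equivFin J i : Fin (Fintype.card J)) : ℕ) := fun h' =>
        hij ((Fintype.equivFin J).injective (Fin.ext h').symm)
      rw [if_neg h2, if_neg hij, one_zpow]
  rw [Finset.prod_congr rfl fun i _ => h i, Finset.prod_ite_eq' Finset.univ j, if_pos (Finset.mem_univ j)]

theorem th0_inj (J : Type) [Fintype J] : Function.Injective (th0 J) := fun f g h =>
  funext fun j => by rw [← vp_th0 J f j, ← vp_th0 J g j, h]

/-- THETA. -/
theorem theta (La : Type u) [CommGroup La] [Group.FG La] (s : La →* (AlgebraicClosure ℚ)ˣ)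
    (hs : ∀ x, IsOfFinOrder x → s x = 1 → x = 1) :
    ∃ t : La →* (AlgebraicClosure ℚ)ˣ, Function.Injective t ∧ ∀ x, IsOfFinOrder x → t x = s x := by
  obtain ⟨ι, J, hι, hJ, p, hp, e, ⟨f⟩⟩ := CommGroup.equiv_free_prod_prod_multiplicative_zmod La
  have hne : ∀ i, NeZero (p i ^ e i) := fun i => ⟨pow_ne_zero _ (hp i).ne_zero⟩
  have hfinD : Finite ((i : ι) → Multiplicative (ZMod (p i ^ e i))) := by
    have : ∀ i, Finite (Multiplicative (ZMod (p i ^ e i))) := fun i =>
      inferInstanceAs (Finite (ZMod (p i ^ e i)))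
    infer_instance
  let D := (i : ι) → Multiplicative (ZMod (p i ^ e i))
  let em : ℚˣ →* (AlgebraicClosure ℚ)ˣ := Units.map (algebraMap ℚ (AlgebraicClosure ℚ)).toMonoidHom
  have hem : Function.Injective em :=
    Units.map_injective (algebraMap ℚ (AlgebraicClosure ℚ)).injective
  let fr : La →* (J → Multiplicative ℤ) := (MonoidHom.fst _ _).comp f.toMonoidHom
  let tr : La →* La :=
    f.symm.toMonoidHom.comp ((MonoidHom.inr (J → Multiplicative ℤ) D).comp
      ((MonoidHom.snd (J → Multiplicative ℤ) D).comp f.toMonoidHom))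
  have hJt : ∀ a : J → Multiplicative ℤ, ∀ n : ℕ, 0 < n → a ^ n = 1 → a = 1 := by
    intro a n hn h
    funext j
    have h1 : (a j) ^ n = 1 := congrFun h j
    have h2 : n • (Multiplicative.toAdd (a j)) = 0 := congrArg Multiplicative.toAdd h1
    have h3 : Multiplicative.toAdd (a j) = 0 := (smul_eq_zero.1 h2).resolve_left hn.ne'
    exact congrArg Multiplicative.ofAdd h3
  have htr : ∀ x, fr x = 1 → tr x = x := by
    intro x hx
    change f.symm (1, (f x).2) = x
    have : ((1 : J → Multiplicative ℤ), (f x).2) = f x := Prod.ext hx.symm rfl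
    rw [this, MulEquiv.symm_apply_apply]
  have hfo : ∀ x, IsOfFinOrder (tr x) := by
    intro x
    have h1 : IsOfFinOrder ((f x).2 : D) := isOfFinOrder_of_finite _
    have h2 : IsOfFinOrder ((MonoidHom.inr (J → Multiplicative ℤ) D) (f x).2) :=
      MonoidHom.isOfFinOrder _ h1
    exact MonoidHom.isOfFinOrder f.symm.toMonoidHom h2
  have hfr : ∀ x, IsOfFinOrder x → fr x = 1 := by
    intro x hx
    obtain ⟨n, hn, hxn⟩ := isOfFinOrder_iff_pow_eq_one.1 hx
    exact hJt _ n hn (by rw [← map_pow, hxn, map_one])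
  refine ⟨(s.comp tr) * (em.comp ((th0 J).comp fr)), ?_, ?_⟩
  · rw [injective_iff_map_eq_one]
    intro x hx
    have hx' : s (tr x) * em (th0 J (fr x)) = 1 := hx
    obtain ⟨n, hn, hxn⟩ := isOfFinOrder_iff_pow_eq_one.1 (hfo x)
    have h1 : em (th0 J (fr x ^ n)) = 1 := by
      have h2 := congrArg (fun z => z ^ n) hx'
      simp only [mul_pow, one_pow] at h2
      rw [← map_pow s, hxn, map_one, one_mul, ← map_pow em, ← map_pow (th0 J)] at h2
      exact h2
    have h3 : fr x ^ n = 1 := by
      apply th0_inj J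
      apply hem
      rw [h1, map_one, map_one]
    have h4 : fr x = 1 := hJt _ n hn h3
    rw [h4, map_one, map_one, mul_one, htr x h4] at hx'
    have h5 : IsOfFinOrder x := by
      have := hfo x
      rwa [htr x h4] at this
    exact hs x h5 hx'
  · intro x hx
    have h4 := hfr x hx
    change s (tr x) * em (th0 J (fr x)) = s x
    rw [h4, map_one, map_one, mul_one, htr x h4]

end Pool.Agent.NegK.NT.H70
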